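import Pool.Agent.Helper95_PSC.Stmts

/-! Module CliqueStmt. -/

set_option autoImplicit false

namespace Pool.Agent.PSC.H97

open Pool.Agent.PSC Pool.Agent.Helper40_Pisot MeasureTheory

variable {m : ℕ}

theorem ht_add (l : Fin (m + 1) → ℝ) (v w : Lat m) : ht l (v + w) = ht l v + ht l w := by
  unfold ht
  rw [← Finset.sum_add_distrib]
  refine Finset.sum_congr rfl fun i _ => ?_
  rw [Pi.add_apply]
  push_cast
  ring

theorem ht_sub (l : Fin (m + 1) → ℝ) (v w : Lat m) : ht l (v - w) = ht l v - ht l w := by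
  unfold ht
  rw [← Finset.sum_sub_distrib]
  refine Finset.sum_congr rfl fun i _ => ?_
  rw [Pi.sub_apply]
  push_cast
  ring

theorem pr_sub (α : Fin (m + 1) → ℝ) (v w : Lat m) : pr α (v - w) = pr α v - pr α w := by
  funext i
  unfold pr
  simp only [Pi.sub_apply]
  push_cast
  rw [Finset.sum_sub_distrib]
  ring

theorem tr_inj (v : Lat m) : Function.Injective (tr v : Face m → Face m) := by
  intro F G h
  have h1 : (tr v F).1 = (tr v G).1 := by rw [h]
  have h2 : (tr v F).2 = (tr v G).2 := by rw [h]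
  exact Prod.ext (add_left_cancel (a := v) h1) h2

theorem mem_trS {v : Lat m} {C : Finset (Face m)} {F : Face m} :
    tr v F ∈ trS v C ↔ F ∈ C := by
  unfold trS
  rw [Finset.mem_image]
  constructor
  · rintro ⟨G, hG, h⟩
    rwa [← tr_inj v h]
  · intro h
    exact ⟨F, h, rfl⟩

theorem alive_tr {l : Fin (m + 1) → ℝ} {t : ℝ} {F : Face m} (v : Lat m) (h : Alive l t F) :
    Alive l (t + ht l v) (tr v F) := by
  unfold Alive tr at *
  simp only
  rw [ht_add]
  constructor <;> linarith [h.1, h.2]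

theorem clique (hA : LatAStmt) (hT : TileStmt) : CliqueStmt := by
  classical
  intro m σ M r α l a0 x0 D k hk hMult
  obtain ⟨hinj, ⟨K0, hK0, hbd⟩, -⟩ := hA m σ M r α l a0 x0 D
  obtain ⟨hcomp, htr, ⟨K1, hK1⟩, hpos, -⟩ := hT m σ M r α l a0 x0 D
  -- bound
  set lm : ℝ := ∑ i, l i with hlm
  have hl : ∀ i, 0 < l i := D.pf.l_pos
  have hle : ∀ i, l i ≤ lm := fun i =>
    Finset.single_le_sum (f := l) (fun j _ => (hl j).le) (Finset.mem_univ i)
  have hB : ∃ K : ℤ, ∀ C, Clique σ α l x0 k C → ∀ F ∈ C, ∀ F' ∈ C, ∀ i, |F.1 i - F'.1 i| ≤ K := by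
    refine ⟨⌈K0 * (lm + ∑ j : Fin m, (2 * K1))⌉, fun C hC F hF F' hF' i => ?_⟩
    obtain ⟨-, ⟨t, ht0⟩, hv⟩ := hC
    obtain ⟨y, hy⟩ : (tI σ α x0 C).Nonempty := nonempty_of_measure_ne_zero hv.ne'
    have hy' : ∀ G ∈ C, y ∈ tile σ α x0 G := by
      intro G hG
      exact Set.mem_iInter₂.1 hy G hG
    have h1 : |ht l (F.1 - F'.1)| ≤ lm := by
      rw [ht_sub, abs_le]
      have a1 := ht0 F hF
      have a2 := ht0 F' hF'
      unfold Alive at a1 a2
      have := hle F.2
      have := hle F'.2
      constructor <;> linarith [a1.1, a1.2, a2.1, a2.2]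
    have h2 : ∀ j, |pr α (F.1 - F'.1) j| ≤ 2 * K1 := by
      intro j
      have b1 := hK1 F y (hy' F hF) j
      have b2 := hK1 F' y (hy' F' hF') j
      rw [pr_sub, Pi.sub_apply]
      rw [abs_le] at *
      constructor <;> linarith [b1.1, b1.2, b2.1, b2.2]
    have h3 := hbd (F.1 - F'.1) i
    have h4 : |(((F.1 - F'.1) i : ℤ) : ℝ)| ≤ K0 * (lm + ∑ j : Fin m, (2 * K1)) := by
      refine h3.trans (mul_le_mul_of_nonneg_left ?_ hK0.le)
      exact add_le_add h1 (Finset.sum_le_sum fun j _ => h2 j)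
    have h5 : ((|F.1 i - F'.1 i| : ℤ) : ℝ) ≤ (⌈K0 * (lm + ∑ j : Fin m, (2 * K1))⌉ : ℤ) := by
      refine le_trans ?_ (h4.trans (Int.le_ceil _))
      rw [Int.cast_abs]
      exact le_of_eq rfl
    exact_mod_cast h5
  refine ⟨hB, fun t => ?_, ?_, ?_⟩
  · -- covering
    have hnull : ∀ᵐ y ∂(volume : Measure (E m)), ∀ C : Finset (Face m),
        volume (tI σ α x0 C) = 0 → y ∉ tI σ α x0 C := by
      rw [ae_all_iff]
      intro C
      by_cases hC : volume (tI σ α x0 C) = 0
      · have := measure_eq_zero_iff_ae_notMem.1 hC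
        filter_upwards [this] with y hy _
        exact hy
      · exact Filter.Eventually.of_forall fun y h => absurd h hC
    filter_upwards [hMult t, hnull] with y hy hn
    have hfin : {F : Face m | Alive l t F ∧ y ∈ tile σ α x0 F}.Finite := by
      apply Set.finite_of_ncard_ne_zero
      omega
    refine ⟨hfin.toFinset, ⟨?_, ⟨t, ?_⟩, ?_⟩, ?_⟩
    · rw [← Set.ncard_eq_toFinset_card _ hfin, hy]
    · intro F hF
      rw [Set.Finite.mem_toFinset] at hF
      exact hF.1
    · rw [pos_iff_ne_zero]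
      intro h0
      refine hn _ h0 ?_
      unfold tI
      refine Set.mem_iInter₂.2 fun F hF => ?_
      rw [Set.Finite.mem_toFinset] at hF
      exact hF.2
    · intro F
      rw [Set.Finite.mem_toFinset]
      rfl
  · -- translation
    intro v C hC
    obtain ⟨h1, ⟨t, h2⟩, h3⟩ := hC
    refine ⟨?_, ⟨t + ht l v, ?_⟩, ?_⟩
    · unfold trS
      rw [Finset.card_image_of_injective _ (tr_inj v), h1]
    · intro G hG
      unfold trS at hG
      rw [Finset.mem_image] at hG
      obtain ⟨F, hF, rfl⟩ := hG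
      exact alive_tr v (h2 F hF)
    · have h4 : tI σ α x0 (trS v C) = (fun y => pr α v + y) '' tI σ α x0 C := by
        ext y
        unfold tI
        rw [Set.mem_iInter₂]
        constructor
        · intro h
          refine ⟨y - pr α v, Set.mem_iInter₂.2 fun F hF => ?_, add_sub_cancel (pr α v) y⟩
          have h5 := h (tr v F) (mem_trS.2 hF)
          rw [htr] at h5
          obtain ⟨z, hz, hzy⟩ := h5
          have h6 : y - pr α v = z := by
            rw [← hzy]
            simp only
            abel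
          rwa [h6]
        · rintro ⟨z, hz, rfl⟩ G hG
          unfold trS at hG
          rw [Finset.mem_image] at hG
          obtain ⟨F, hF, rfl⟩ := hG
          rw [htr]
          exact ⟨z, Set.mem_iInter₂.1 hz F hF, rfl⟩
      rw [h4, Set.image_add_left, measure_preimage_add]
      exact h3
  · -- finiteness
    intro t F
    obtain ⟨K, hK⟩ := hB
    have hfin : {v : Lat m | ∀ i, |v i - F.1 i| ≤ K}.Finite := by
      refine (Set.Finite.pi' (t := fun i => Set.Icc (F.1 i - K) (F.1 i + K))
        fun i => Set.finite_Icc _ _).subset ?_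
      intro v hv i
      have := abs_le.1 (hv i)
      exact ⟨by linarith [this.1], by linarith [this.2]⟩
    have hfin2 : {G : Face m | ∀ i, |G.1 i - F.1 i| ≤ K}.Finite := by
      refine (hfin.prod (Set.finite_univ (α := Fin (m + 1)))).subset ?_
      intro G hG
      exact ⟨hG, Set.mem_univ _⟩
    refine (hfin2.toFinset.powerset.finite_toSet).subset ?_
    rintro C ⟨hC, -, hFC⟩
    rw [Finset.mem_coe, Finset.mem_powerset]
    intro G hG
    rw [Set.Finite.mem_toFinset]
    intro i
    exact hK C hC G hG F hFC i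

end Pool.Agent.PSC.H97
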